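import Pool.Agent.H622R2.StrongDivRed
import Pool.Agent.NPC.Sat
import Pool.Agent.NPC.Dec

/-!
# Recognising strongly 2-divisible graphs is coNP-hard

The decision problem has as input a finite simple graph, given by an adjacency matrix
`M : List (List Bool)` (`matGraph M` is the graph), and asks whether every induced subgraph has a
2-clique-colouring, i.e. a colouring of the vertices by two colours such that no inclusion-maximal
clique with at least two vertices is monochromatic.

Reduction from the complement of 3SAT (`H622R2.StrongDivRed`, in the starting material).  The main
vertices are two vertices for each clause, one vertex for each literal of a variable, and one
further vertex; certain pairs of main vertices are joined by links with private half vertices, and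
an induced subgraph without a 2-clique-colouring contains an odd cycle of complete links, from
which a satisfying assignment is read off; conversely a satisfying assignment gives such an
induced subgraph.
-/

set_option autoImplicit false

namespace Pool.Agent.Results.MP_65ccf5_lc.StrongDivCoNPHard

open Pool.Agent.NPC Pool.Agent.H622R2

/-- **Recognition of strongly 2-divisible graphs is coNP-hard** under polynomial-time many-one
reductions. -/
theorem result : CoNPHardP (fun M : List (List Bool) => StronglyDivisible 2 (matGraph M)) :=
  (HardI.trans (Q := fun M : List (List Bool) => ¬ StronglyDivisible 2 (matGraph M))
    hardI_SAT3 sdRed_poly (fun φ => sdRed_correct φ)).toCoNPHardP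

end Pool.Agent.Results.MP_65ccf5_lc.StrongDivCoNPHard
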